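import Mathlib

set_option autoImplicit false

open Set

namespace Pool.Agent.Results.MP_adc54a_gt.FiniteToOne

/-- Orthocompactness: every open cover has an open refinement that is interior-preserving,
that is, every subfamily has open intersection. -/
def Orthocompact (X : Type) [TopologicalSpace X] : Prop :=
  ∀ 𝒰 : Set (Set X), (∀ u ∈ 𝒰, IsOpen u) → ⋃₀ 𝒰 = Set.univ →
    ∃ 𝒱 : Set (Set X), (∀ v ∈ 𝒱, IsOpen v) ∧ ⋃₀ 𝒱 = Set.univ ∧
      (∀ v ∈ 𝒱, ∃ u ∈ 𝒰, v ⊆ u) ∧ (∀ 𝒲 ⊆ 𝒱, IsOpen (⋂₀ 𝒲))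

/-- Countable metacompactness: every countable open cover has a point-finite open refinement. -/
def CountablyMetacompact (X : Type) [TopologicalSpace X] : Prop :=
  ∀ 𝒰 : Set (Set X), 𝒰.Countable → (∀ u ∈ 𝒰, IsOpen u) → ⋃₀ 𝒰 = Set.univ →
    ∃ 𝒱 : Set (Set X), (∀ v ∈ 𝒱, IsOpen v) ∧ ⋃₀ 𝒱 = Set.univ ∧
      (∀ v ∈ 𝒱, ∃ u ∈ 𝒰, v ⊆ u) ∧ (∀ x : X, {v | v ∈ 𝒱 ∧ x ∈ v}.Finite)

variable {X Y : Type} [TopologicalSpace X] [TopologicalSpace Y]

/-- From orthocompactness to transitive neighbourhood assignments. -/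
theorem exists_transitive (hX : Orthocompact X) (A : X → Set X) (hA : ∀ x, IsOpen (A x))
    (hxA : ∀ x, x ∈ A x) :
    ∃ (N : X → Set X) (ψ : X → X), (∀ x, IsOpen (N x)) ∧ (∀ x, x ∈ N x) ∧
      (∀ x, ∀ x' ∈ N x, N x' ⊆ N x) ∧ (∀ x, N x ⊆ A (ψ x)) := by
  obtain ⟨𝒱, -, h2, h3, h4⟩ := hX (range A) (by rintro _ ⟨x, rfl⟩; exact hA x) (by
    rw [eq_univ_iff_forall]
    exact fun x => ⟨A x, ⟨x, rfl⟩, hxA x⟩)
  have hex : ∀ x : X, ∃ x' : X, ∃ v ∈ 𝒱, x ∈ v ∧ v ⊆ A x' := by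
    intro x
    have hx : x ∈ ⋃₀ 𝒱 := by rw [h2]; trivial
    obtain ⟨v, hv, hxv⟩ := hx
    obtain ⟨_, ⟨x', rfl⟩, h⟩ := h3 v hv
    exact ⟨x', v, hv, hxv, h⟩
  choose ψ v hv hxv hvA using hex
  refine ⟨fun x => ⋂₀ {w | w ∈ 𝒱 ∧ x ∈ w}, ψ, ?_, ?_, ?_, ?_⟩
  · intro x
    exact h4 _ fun w hw => hw.1
  · rintro x w ⟨_, hw⟩
    exact hw
  · intro x x' hx' y hy w hw
    exact hy w ⟨hw.1, hx' w hw⟩
  · intro x y hy
    exact hvA x (hy (v x) ⟨hv x, hxv x⟩)

/-- From indexed interior-preserving covers back to the definition. -/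
theorem refinement_of_family {ι : Type} (𝒰 : Set (Set Y)) (V : ι → Set Y)
    (hV : ∀ i, IsOpen (V i)) (hcov : ∀ y, ∃ i, y ∈ V i) (href : ∀ i, (V i).Nonempty → ∃ u ∈ 𝒰, V i ⊆ u)
    (hip : ∀ y, ∃ M : Set Y, IsOpen M ∧ y ∈ M ∧ ∀ i, y ∈ V i → M ⊆ V i) :
    ∃ 𝒱 : Set (Set Y), (∀ v ∈ 𝒱, IsOpen v) ∧ ⋃₀ 𝒱 = Set.univ ∧
      (∀ v ∈ 𝒱, ∃ u ∈ 𝒰, v ⊆ u) ∧ (∀ 𝒲 ⊆ 𝒱, IsOpen (⋂₀ 𝒲)) := by
  refine ⟨{v | v.Nonempty ∧ ∃ i, V i = v}, ?_, ?_, ?_, ?_⟩
  · rintro _ ⟨_, i, rfl⟩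
    exact hV i
  · rw [eq_univ_iff_forall]
    intro y
    obtain ⟨i, hi⟩ := hcov y
    exact ⟨V i, ⟨⟨y, hi⟩, i, rfl⟩, hi⟩
  · rintro _ ⟨h, i, rfl⟩
    exact href i h
  · intro 𝒲 hW
    rw [isOpen_iff_forall_mem_open]
    intro y hy
    obtain ⟨M, hM, hyM, h⟩ := hip y
    refine ⟨M, ?_, hM, hyM⟩
    intro z hz w hw
    obtain ⟨_, i, rfl⟩ := hW hw
    exact h i (hy _ hw) hz

/-- The points whose fibre is contained in `S`. -/
def star (f : X → Y) (S : Set X) : Set Y := {y | f ⁻¹' {y} ⊆ S}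

theorem isOpen_star {f : X → Y} (hc : IsClosedMap f) {S : Set X} (hS : IsOpen S) :
    IsOpen (star f S) := by
  have : star f S = (f '' Sᶜ)ᶜ := by
    ext y
    simp only [star, mem_compl_iff, mem_image, not_exists, not_and]
    constructor
    · intro h x hx hxy
      exact hx (h hxy)
    · intro h x hx
      by_contra hxS
      exact h x hxS hx
  rw [this]
  exact (hc _ hS.isClosed_compl).isOpen_compl

/-- One stage of the construction. -/
structure Stage (f : X → Y) (𝒰 : Set (Set Y)) (n : ℕ) where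
  N : X → Set X
  G : 𝒰 → Set X
  openN : ∀ x, IsOpen (N x)
  memN : ∀ x, x ∈ N x
  transN : ∀ x, ∀ x' ∈ N x, N x' ⊆ N x
  openG : ∀ i, IsOpen (G i)
  subG : ∀ i, ∀ x ∈ G i, f x ∈ (i : Set Y)
  satG : ∀ i, ∀ x ∈ G i, N x ⊆ G i
  claim : ∀ y : Y, ∀ s : Finset X, (∀ x ∈ s, f x = y) → s.card ≤ n →
    ∃ i : 𝒰, y ∈ (i : Set Y) ∧ ∀ x ∈ s, x ∈ G i

theorem next (hX : Orthocompact X) {f : X → Y} (hf : Continuous f) (hc : IsClosedMap f)
    (hfin : ∀ y : Y, (f ⁻¹' {y}).Finite) {𝒰 : Set (Set Y)} (h𝒰 : ∀ u ∈ 𝒰, IsOpen u)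
    {n : ℕ} (S : Stage f 𝒰 n) : ∃ S' : Stage f 𝒰 (n + 1), ∀ i, S.G i ⊆ S'.G i := by
  classical
  -- the finite fibre as a finset
  let F : Y → Finset X := fun y => (hfin y).toFinset
  have hF : ∀ y x, x ∈ F y ↔ f x = y := by
    intro y x
    simp [F]
  have hch : ∀ (y : Y) (s : Finset X), ∃ i : 𝒰, ((∀ x ∈ s, f x = y) → s.card ≤ n →
      y ∈ (i : Set Y) ∧ ∀ x ∈ s, x ∈ S.G i) := by
    intro y s
    by_cases h : (∀ x ∈ s, f x = y) ∧ s.card ≤ n
    · obtain ⟨i, hi⟩ := S.claim y s h.1 h.2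
      exact ⟨i, fun _ _ => hi⟩
    · obtain ⟨i, -⟩ := S.claim y ∅ (by simp) (by simp)
      exact ⟨i, fun h1 h2 => absurd ⟨h1, h2⟩ h⟩
  choose c hcc using hch
  -- the finite set of indices attached to a point of `Y`
  let I : Y → Finset 𝒰 := fun y => ((F y).powerset.filter fun s => s.card ≤ n).image (c y)
  have hI : ∀ y, ∀ i ∈ I y, y ∈ (i : Set Y) := by
    intro y i hi
    simp only [I, Finset.mem_image, Finset.mem_filter, Finset.mem_powerset] at hi
    obtain ⟨s, ⟨hs, hcard⟩, rfl⟩ := hi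
    exact (hcc y s (fun x hx => (hF y x).1 (hs hx)) hcard).1
  let M : Y → Set Y := fun y => star f (⋃ x ∈ F y, S.N x)
  have hMo : ∀ y, IsOpen (M y) := fun y =>
    isOpen_star hc (isOpen_biUnion fun x _ => S.openN x)
  have hyM : ∀ y, y ∈ M y := by
    intro y x hx
    exact mem_iUnion₂.2 ⟨x, (hF y x).2 hx, S.memN x⟩
  let A : X → Set X := fun x => S.N x ∩ f ⁻¹' (M (f x)) ∩ ⋂ i ∈ I (f x), f ⁻¹' (i : Set Y)
  have hAo : ∀ x, IsOpen (A x) := by
    intro x
    refine ((S.openN x).inter ((hMo _).preimage hf)).inter ?_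
    exact isOpen_biInter_finset fun i _ => (h𝒰 i i.2).preimage hf
  have hxA : ∀ x, x ∈ A x := by
    intro x
    refine ⟨⟨S.memN x, hyM _⟩, ?_⟩
    exact mem_iInter₂.2 fun i hi => hI _ i hi
  obtain ⟨N', ψ, h1, h2, h3, h4⟩ := exists_transitive hX A hAo hxA
  refine ⟨
    { N := fun x => N' x ∩ S.N x
      G := fun i => S.G i ∪ ⋃ x ∈ {x | i ∈ I (f (ψ x))}, (N' x ∩ S.N x)
      openN := fun x => (h1 x).inter (S.openN x)
      memN := fun x => ⟨h2 x, S.memN x⟩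
      transN := ?_
      openG := ?_
      subG := ?_
      satG := ?_
      claim := ?_ }, ?_⟩
  · intro x x' hx'
    exact inter_subset_inter (h3 x x' hx'.1) (S.transN x x' hx'.2)
  · intro i
    exact (S.openG i).union (isOpen_biUnion fun x _ => (h1 x).inter (S.openN x))
  · rintro i x (hx | hx)
    · exact S.subG i x hx
    · obtain ⟨x', hx', hx2⟩ := mem_iUnion₂.1 hx
      have h5 : x ∈ A (ψ x') := h4 x' hx2.1
      exact mem_iInter₂.1 h5.2 i hx'
  · rintro i x (hx | hx)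
    · exact (inter_subset_right.trans (S.satG i x hx)).trans subset_union_left
    · obtain ⟨x', hx', hx2⟩ := mem_iUnion₂.1 hx
      refine Subset.trans ?_ subset_union_right
      refine Subset.trans ?_ (subset_biUnion_of_mem hx')
      exact inter_subset_inter (h3 x' x hx2.1) (S.transN x' x hx2.2)
  · intro y s hs hcard
    rcases s.eq_empty_or_nonempty with rfl | ⟨x₀, hx₀⟩
    · obtain ⟨i, hi, -⟩ := S.claim y ∅ (by simp) (by simp)
      exact ⟨i, hi, by simp⟩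
    · -- the point of `Y` attached to `x₀`
      have h5 : x₀ ∈ A (ψ x₀) := h4 x₀ (h2 x₀)
      have h6 : y ∈ M (f (ψ x₀)) := by
        have := h5.1.2
        rwa [mem_preimage, hs x₀ hx₀] at this
      have h7 : ∀ x : X, ∃ w : X, f x = y → (w ∈ F (f (ψ x₀)) ∧ x ∈ S.N w) := by
        intro x
        by_cases hx : f x = y
        · obtain ⟨w, hw, hxw⟩ := mem_iUnion₂.1 (h6 (show x ∈ f ⁻¹' {y} from hx))
          exact ⟨w, fun _ => ⟨hw, hxw⟩⟩
        · exact ⟨x, fun h => absurd h hx⟩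
      choose w hw using h7
      let t : Finset X := (s.erase x₀).image w
      have ht1 : t ⊆ F (f (ψ x₀)) := by
        intro z hz
        simp only [t, Finset.mem_image] at hz
        obtain ⟨x, hx, rfl⟩ := hz
        exact (hw x (hs x (Finset.mem_of_mem_erase hx))).1
      have ht2 : t.card ≤ n := by
        refine Finset.card_image_le.trans ?_
        rw [Finset.card_erase_of_mem hx₀]
        omega
      have ht3 := hcc (f (ψ x₀)) t (fun x hx => (hF _ x).1 (ht1 hx)) ht2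
      have hiI : c (f (ψ x₀)) t ∈ I (f (ψ x₀)) := by
        simp only [I, Finset.mem_image, Finset.mem_filter, Finset.mem_powerset]
        exact ⟨t, ⟨ht1, ht2⟩, rfl⟩
      refine ⟨c (f (ψ x₀)) t, ?_, ?_⟩
      · have := mem_iInter₂.1 h5.2 _ hiI
        rwa [mem_preimage, hs x₀ hx₀] at this
      · intro x hx
        by_cases hxx : x = x₀
        · subst hxx
          right
          exact mem_iUnion₂.2 ⟨x, hiI, h2 x, S.memN x⟩
        · left
          have h8 := hw x (hs x hx)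
          have h9 : w x ∈ t := Finset.mem_image_of_mem w (Finset.mem_erase.2 ⟨hxx, hx⟩)
          exact S.satG _ _ (ht3.2 (w x) h9) h8.2
  · intro i
    exact subset_union_left

omit [TopologicalSpace Y] in
/-- The starting stage. -/
theorem start {f : X → Y} {𝒰 : Set (Set Y)} (hcov : ⋃₀ 𝒰 = Set.univ) :
    Nonempty (Stage f 𝒰 0) := by
  refine ⟨⟨fun _ => univ, fun _ => ∅, fun _ => isOpen_univ, fun _ => trivial,
    fun _ _ _ => subset_rfl, fun _ => isOpen_empty, fun _ _ h => absurd h (notMem_empty _),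
    fun _ _ h => absurd h (notMem_empty _), ?_⟩⟩
  intro y s _ hs
  have : s = ∅ := by simpa using hs
  subst this
  have hy : y ∈ ⋃₀ 𝒰 := by rw [hcov]; trivial
  obtain ⟨u, hu, hyu⟩ := hy
  exact ⟨⟨u, hu⟩, hyu, by simp⟩

/-- The main construction, under a shrinking hypothesis for the relevant increasing open covers. -/
theorem main (hX : Orthocompact X) {f : X → Y} (hf : Continuous f) (hc : IsClosedMap f)
    (hs : Function.Surjective f) (hfin : ∀ y : Y, (f ⁻¹' {y}).Finite)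
    (H : ∀ E : ℕ → Set Y, (∀ n, IsOpen (E n)) → Monotone E →
      (∀ n, {y | (f ⁻¹' {y}).ncard ≤ n} ⊆ E n) →
      ∃ O : ℕ → Set Y, (∀ n, IsOpen (O n)) ∧ (∀ n, O n ⊆ E n) ∧ (∀ y, ∃ n, y ∈ O n) ∧
        ∀ y, {n | y ∈ O n}.Finite) :
    Orthocompact Y := by
  classical
  intro 𝒰 h𝒰 hcov
  obtain ⟨S0⟩ := start (f := f) hcov
  have hnext := fun (n : ℕ) (S : Stage f 𝒰 n) => next hX hf hc hfin h𝒰 S
  choose nx hnx using hnext
  let S : (n : ℕ) → Stage f 𝒰 n := fun n => Nat.rec S0 (fun n s => nx n s) n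
  have hSs : ∀ n, S (n + 1) = nx n (S n) := fun n => rfl
  have hmono : ∀ i, Monotone fun n => (S n).G i := by
    intro i
    refine monotone_nat_of_le_succ fun n => ?_
    rw [hSs]
    exact hnx n (S n) i
  let E : ℕ → Set Y := fun n => ⋃ i, star f ((S n).G i)
  have hEo : ∀ n, IsOpen (E n) := fun n => isOpen_iUnion fun i => isOpen_star hc ((S n).openG i)
  have hEm : Monotone E := by
    intro m n hmn
    refine iUnion_mono fun i => ?_
    intro y hy
    exact Subset.trans hy (hmono i hmn)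
  have hEn : ∀ n, {y | (f ⁻¹' {y}).ncard ≤ n} ⊆ E n := by
    intro n y hy
    obtain ⟨i, -, hi⟩ := (S n).claim y (hfin y).toFinset (by simp) (by
      rw [← Set.ncard_eq_toFinset_card _ (hfin y)]
      exact hy)
    refine mem_iUnion.2 ⟨i, ?_⟩
    intro x hx
    exact hi x (by simpa using hx)
  obtain ⟨O, hOo, hOE, hOc, hOf⟩ := H E hEo hEm hEn
  refine refinement_of_family 𝒰 (ι := ℕ × 𝒰) (fun p => star f ((S p.1).G p.2) ∩ O p.1) ?_ ?_ ?_ ?_
  · rintro ⟨n, i⟩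
    exact (isOpen_star hc ((S n).openG i)).inter (hOo n)
  · intro y
    obtain ⟨n, hn⟩ := hOc y
    obtain ⟨i, hi⟩ := mem_iUnion.1 (hOE n hn)
    exact ⟨(n, i), hi, hn⟩
  · rintro ⟨n, i⟩ -
    refine ⟨i, i.2, ?_⟩
    rintro y ⟨hy, -⟩
    obtain ⟨x, rfl⟩ := hs y
    exact (S n).subG i x (hy rfl)
  · intro y
    refine ⟨⋂ n ∈ {n | y ∈ O n}, (star f (⋃ x ∈ f ⁻¹' {y}, (S n).N x) ∩ O n), ?_, ?_, ?_⟩
    · exact (hOf y).isOpen_biInter fun n _ =>
        (isOpen_star hc (isOpen_biUnion fun x _ => (S n).openN x)).inter (hOo n)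
    · refine mem_iInter₂.2 fun n hn => ⟨?_, hn⟩
      intro x hx
      exact mem_iUnion₂.2 ⟨x, hx, (S n).memN x⟩
    · rintro ⟨n, i⟩ ⟨h1, h2⟩ z hz
      obtain ⟨h3, h4⟩ := mem_iInter₂.1 hz n h2
      refine ⟨?_, h4⟩
      intro x hx
      obtain ⟨x', hx', hx2⟩ := mem_iUnion₂.1 (h3 hx)
      exact (S n).satG i x' (h1 hx') hx2

/-- Point-finite shrinking of increasing covers in a countably metacompact space. -/
theorem shrink (hY : CountablyMetacompact Y) (E : ℕ → Set Y) (hE : ∀ n, IsOpen (E n))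
    (hcov : ∀ y, ∃ n, y ∈ E n) :
    ∃ O : ℕ → Set Y, (∀ n, IsOpen (O n)) ∧ (∀ n, O n ⊆ E n) ∧ (∀ y, ∃ n, y ∈ O n) ∧
        ∀ y, {n | y ∈ O n}.Finite := by
  classical
  obtain ⟨𝒱, h1, h2, h3, h4⟩ := hY (range E) (countable_range E)
    (by rintro _ ⟨n, rfl⟩; exact hE n) (by
      rw [eq_univ_iff_forall]
      intro y
      obtain ⟨n, hn⟩ := hcov y
      exact ⟨E n, ⟨n, rfl⟩, hn⟩)
  have h5 : ∀ v : Set Y, ∃ n, v ∈ 𝒱 → v ⊆ E n := by
    intro v
    by_cases hv : v ∈ 𝒱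
    · obtain ⟨_, ⟨n, rfl⟩, h⟩ := h3 v hv
      exact ⟨n, fun _ => h⟩
    · exact ⟨0, fun h => absurd h hv⟩
  choose r hr using h5
  refine ⟨fun n => ⋃₀ {v | v ∈ 𝒱 ∧ r v = n}, ?_, ?_, ?_, ?_⟩
  · intro n
    exact isOpen_sUnion fun v hv => h1 v hv.1
  · rintro n y ⟨v, ⟨hv, rfl⟩, hy⟩
    exact hr v hv hy
  · intro y
    have hy : y ∈ ⋃₀ 𝒱 := by rw [h2]; trivial
    obtain ⟨v, hv, hyv⟩ := hy
    exact ⟨r v, v, ⟨hv, rfl⟩, hyv⟩
  · intro y
    refine ((h4 y).image r).subset ?_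
    rintro n ⟨v, ⟨hv, rfl⟩, hy⟩
    exact ⟨v, ⟨hv, hy⟩, rfl⟩

/-- Closed surjections preserve countable metacompactness (only increasing covers are needed). -/
theorem shrink_image {f : X → Y} (hX : CountablyMetacompact X) (hf : Continuous f)
    (hc : IsClosedMap f) (hs : Function.Surjective f) (E : ℕ → Set Y) (hE : ∀ n, IsOpen (E n))
    (hmono : Monotone E) (hcov : ∀ y, ∃ n, y ∈ E n) :
    ∃ O : ℕ → Set Y, (∀ n, IsOpen (O n)) ∧ (∀ n, O n ⊆ E n) ∧ (∀ y, ∃ n, y ∈ O n) ∧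
        ∀ y, {n | y ∈ O n}.Finite := by
  classical
  obtain ⟨O, h1, h2, h3, h4⟩ := shrink hX (fun n => f ⁻¹' (E n)) (fun n => (hE n).preimage hf)
    (fun x => hcov (f x))
  -- `B n` contains the complement of `E n` and the `B n` have empty intersection
  let B : ℕ → Set X := fun n => ⋃ m ∈ {m | n ≤ m}, O m
  have hB : ∀ n, IsOpen (B n) := fun n => isOpen_biUnion fun m _ => h1 m
  refine ⟨fun n => E n ∩ ⋂ m ∈ {m | m < n}, star f (B (m + 1)), ?_, ?_, ?_, ?_⟩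
  · intro n
    refine (hE n).inter ?_
    exact (finite_lt_nat n).isOpen_biInter fun m _ => isOpen_star hc (hB _)
  · intro n
    exact inter_subset_left
  · intro y
    have hex := hcov y
    refine ⟨Nat.find hex, Nat.find_spec hex, mem_iInter₂.2 fun m hm x hx => ?_⟩
    have hm' : m < Nat.find hex := hm
    have hnot : y ∉ E m := Nat.find_min hex hm'
    obtain ⟨k, hk⟩ := h3 x
    refine mem_iUnion₂.2 ⟨k, ?_, hk⟩
    change m + 1 ≤ k
    by_contra hlt
    have hkm : k ≤ m := by omega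
    apply hnot
    have hxk : f x ∈ E k := h2 k hk
    have hxy : f x = y := hx
    rw [hxy] at hxk
    exact hmono hkm hxk
  · intro y
    obtain ⟨x, rfl⟩ := hs y
    obtain ⟨b, hb⟩ := (h4 x).bddAbove
    refine (finite_le_nat (b + 1)).subset ?_
    rintro n ⟨-, hn⟩
    by_contra hcon
    have hbn : b < n := by
      have : ¬ n ≤ b + 1 := hcon
      omega
    have hx : x ∈ B (b + 1) := mem_iInter₂.1 hn b hbn rfl
    obtain ⟨m, hm, hxm⟩ := mem_iUnion₂.1 hx
    have h5 : m ≤ b := hb hxm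
    have h6 : b + 1 ≤ m := hm
    omega

/-- Let `X` be orthocompact and `f : X → Y` a continuous closed surjection with finite fibres.
If the fibres have bounded size, or `X` is countably metacompact, or `Y` is countably metacompact,
or the fibre size is lower semicontinuous, then `Y` is orthocompact. No separation axiom. -/
theorem result (X Y : Type) [TopologicalSpace X] [TopologicalSpace Y] (f : X → Y)
    (hf : Continuous f) (hc : IsClosedMap f) (hs : Function.Surjective f)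
    (hfin : ∀ y : Y, (f ⁻¹' {y}).Finite) (hX : Orthocompact X)
    (h : (∃ k : ℕ, ∀ y : Y, (f ⁻¹' {y}).ncard ≤ k) ∨ CountablyMetacompact X ∨
      CountablyMetacompact Y ∨ (∀ n : ℕ, IsOpen {y : Y | n ≤ (f ⁻¹' {y}).ncard})) :
    Orthocompact Y := by
  refine main hX hf hc hs hfin ?_
  intro E hE hmono hfib
  have hcov : ∀ y, ∃ n, y ∈ E n := fun y =>
    ⟨_, hfib (f ⁻¹' {y}).ncard (show (f ⁻¹' {y}).ncard ≤ (f ⁻¹' {y}).ncard from le_refl _)⟩
  rcases h with ⟨k, hk⟩ | h | h | h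
  · refine ⟨fun n => if n = k then E n else ∅, ?_, ?_, ?_, ?_⟩
    · intro n
      dsimp only
      split_ifs
      · exact hE n
      · exact isOpen_empty
    · intro n
      dsimp only
      split_ifs
      · exact subset_rfl
      · exact empty_subset _
    · intro y
      refine ⟨k, ?_⟩
      dsimp only
      rw [if_pos rfl]
      exact hfib k (hk y)
    · intro y
      refine (finite_singleton k).subset ?_
      intro n hn
      by_contra hne
      have hn' : y ∈ (if n = k then E n else ∅) := hn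
      rw [if_neg (show ¬ n = k from hne)] at hn'
      exact hn'
  · exact shrink_image h hf hc hs E hE hmono hcov
  · exact shrink h E hE hcov
  · refine ⟨fun n => E n ∩ {y : Y | n ≤ (f ⁻¹' {y}).ncard}, fun n => (hE n).inter (h n),
      fun n => inter_subset_left, ?_, ?_⟩
    · intro y
      exact ⟨_, hfib (f ⁻¹' {y}).ncard (show (f ⁻¹' {y}).ncard ≤ (f ⁻¹' {y}).ncard from le_refl _),
        le_refl (f ⁻¹' {y}).ncard⟩
    · intro y
      exact (finite_le_nat (f ⁻¹' {y}).ncard).subset fun n hn => hn.2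

end Pool.Agent.Results.MP_adc54a_gt.FiniteToOne
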